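import Mathlib
import Pool.Agent.X53.Cwd.Good

/-!
# MP_41df87_co, Q1: clique-width is not `O_k(log |V|)` when the box graph is a cycle
-/

namespace Pool.Agent.Results.MP_41df87_co.NotLog

open Pool.Agent.X53.Cwd

/-- Q1 is false, already for `k = 4`: there is no function `g` such that every graph `G` with a
monotone partition into `k` cliques whose box graph is a cycle on its `k` vertices has clique-width
at most `g(k) log |V(G)|`. Quantitatively, for each `s ≥ 2` there is such a graph with `k = 4` and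
`4 s^2` vertices whose clique-width `κ` satisfies `s ≤ κ (16 κ + 2)`. -/
theorem result :
    (¬ ∃ g : ℕ → ℝ, ∀ (V : Type) (_ : Fintype V) (G : SimpleGraph V) (k : ℕ) (part : V → Fin k),
      Good G part → ∃ κ : ℕ, CwLE G κ ∧ (κ : ℝ) ≤ g k * Real.log (Fintype.card V)) ∧
    ∀ s : ℕ, 2 ≤ s → ∃ (G : SimpleGraph (Fin (4 * s) × Fin s))
      (part : Fin (4 * s) × Fin s → Fin 4), Good G part ∧
        ∀ κ : ℕ, CwLE G κ → s ≤ κ * (16 * κ + 2) := by
  constructor
  · rintro ⟨g, hg⟩
    obtain ⟨t, ht⟩ := exists_nat_gt (24 * |g 4|)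
    have hCt : 24 * |g 4| < (t : ℝ) := ht
    have ht0 : (0 : ℝ) < t := lt_of_le_of_lt (by positivity) hCt
    have ht1 : 1 ≤ t := by exact_mod_cast ht0
    set s := 18 * t ^ 4 with hs
    have ht4 : 1 ≤ t ^ 4 := Nat.one_le_pow _ _ ht1
    have hs2 : 2 ≤ s := by omega
    obtain ⟨κ, hκ, hle⟩ := hg (Fin (4 * s) × Fin s) inferInstance (spiral s) 4 _ (spiral_good s hs2)
    have h1 := spiral_bound s κ (by omega) hκ
    have hκt : t ^ 2 ≤ κ := by
      by_contra hcon
      push Not at hcon
      have h2 : κ + 1 ≤ t ^ 2 := hcon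
      have h3 : (κ + 1) * (κ + 1) ≤ t ^ 2 * t ^ 2 := Nat.mul_le_mul h2 h2
      have h4 : t ^ 2 * t ^ 2 = t ^ 4 := by ring
      nlinarith
    have hcard : (Fintype.card (Fin (4 * s) × Fin s) : ℝ) = 1296 * (t : ℝ) ^ 8 := by
      rw [Fintype.card_prod, Fintype.card_fin, Fintype.card_fin, hs]
      push_cast
      ring
    rw [hcard] at hle
    have hlog : Real.log (1296 * (t : ℝ) ^ 8) ≤ 24 * t := by
      have h5 : 1296 * (t : ℝ) ^ 8 ≤ (3 * t) ^ 8 := by
        rw [mul_pow]
        have : (0 : ℝ) ≤ (t : ℝ) ^ 8 := by positivity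
        nlinarith
      calc Real.log (1296 * (t : ℝ) ^ 8) ≤ Real.log ((3 * t) ^ 8) :=
            Real.log_le_log (by positivity) h5
        _ = 8 * Real.log (3 * t) := by rw [Real.log_pow]; norm_num
        _ ≤ 8 * (3 * t) := by
            have := Real.log_le_self (show (0 : ℝ) ≤ 3 * t by positivity)
            linarith
        _ = 24 * t := by ring
    have hlog0 : 0 ≤ Real.log (1296 * (t : ℝ) ^ 8) := by
      apply Real.log_nonneg
      have : (1 : ℝ) ≤ (t : ℝ) ^ 8 := one_le_pow₀ (by exact_mod_cast ht1)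
      linarith
    have h6 : (κ : ℝ) ≤ |g 4| * (24 * t) :=
      hle.trans ((mul_le_mul_of_nonneg_right (le_abs_self _) hlog0).trans
        (mul_le_mul_of_nonneg_left hlog (abs_nonneg _)))
    have h7 : (t : ℝ) ^ 2 ≤ κ := by exact_mod_cast hκt
    nlinarith
  · intro s hs
    exact ⟨spiral s, _, spiral_good s hs, fun κ h => spiral_bound s κ (by omega) h⟩

end Pool.Agent.Results.MP_41df87_co.NotLog
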